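import Mathlib
import Pool.Agent.X296.Prod.Family
import Pool.Agent.X296.Prod.TBMembers
import Pool.Agent.X303.TBDual

/-!
# Rational and numerical equivalence on the varieties generated by the products of a large family
of simple abelian varieties over a fixed finite field

Over an algebraic closure of the field with `p` elements each abelian variety is isogenous to the
reduction of an abelian variety of CM type (Honda, Tate). So an abelian variety over the field with
`p ^ b` elements is modelled by `RedAV`: a finite product of CM types `(E i, Φ i)` with Weil numbers
`π i ∈ E i` that satisfy the formula of Shimura and Taniyama; its cohomology of degree `n`, with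
coefficients in an algebraically closed field `Ω`, consists of the alternating `n`-forms on
`Ω ⊗ H_1`, on which the Frobenius endomorphism acts by `π`. We fix an isomorphism `ν` of the algebraic
closure of `ℚ_p` with `ℂ`.

The ground field with `q = p ^ a` elements is fixed, and so is no parameter that tends to infinity.
The theorem gives sets `S g` of Frobenius polynomials of absolutely simple ordinary abelian
varieties of dimension `g` over this field (`IsMember`, `IsLargeFamily`), that is, of isogeny classes:

* `S g` has at least `q ^ (g ^ 2 / 4 - C g log g)` members for `g ≥ g0`; the number of all isogeny
  classes of dimension `g` is `q ^ ((1 / 4 + o (1)) g ^ 2)` (DiPippo, Howe; Lipnowski, Tsimerman);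
* different members, of the same or of different dimensions, have CM fields that are not
  isomorphic (no roots of theirs generate the same field);
* each member is the Frobenius polynomial of an abelian variety in the sense of `RedAV`.

Let `𝒞` (`OfMembers`) be the class of the abelian varieties `Y` each of whose factors is
supersingular or isogenous, over a finite extension, to a power of a member: `Y` is, over an
algebraic closure, isogenous to a product of arbitrary powers of any finite number of members, of
any dimensions, and of a supersingular abelian variety.

`Homology Ω V` are data of motivic homology `M X i j = H_i^M(X, ℚ(j)) = CH_j(X, i - 2 j) ⊗ ℚ` and of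
`ℓ`-adic homology `E X i j = H_i(X, ℚ_ℓ(j))` (coefficients extended to `Ω`) of schemes `X` of finite
type over a finite field (the elements of `V`), with the Frobenius and the regulator. Let `𝒢` be the
smallest class (`Generated`) of such schemes that contains those with the homology groups of abelian
varieties in `𝒞` (`IsAbelianOfMembers`), that is closed under direct summands of finite sums of
twists of motives, and that contains all of a closed subscheme `Z` of `X`, `X` and `X ∖ Z` if it
contains two of them. It contains for instance all products of varieties in `𝒞`, all products of
curves with Jacobians in `𝒞` and of open subsets of such curves, symmetric powers of them, and the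
singular and the open varieties with a stratification by such varieties.

The theorem: let `X` be a smooth projective scheme of pure dimension `d` in `𝒢`. Then
`M X (2 n) n = H_(2 n)^M(X, ℚ(n)) = CH^(d - n)(X) ⊗ ℚ` and
`M X (2 d - 2 n) (d - n) = CH^n(X) ⊗ ℚ`. The intersection product and the degree define a pairing of
these groups (`CupData`; by `IsCup` it is compatible with the pairing in `ℓ`-adic cohomology, for
which Poincaré duality holds). For all `n` the groups `CH^(d - n)(X) ⊗ ℚ` and `CH^n(X) ⊗ ℚ` are
finite-dimensional and the pairing of them is perfect (`IsPerfect`, over `ℚ`, and so also after the
extension of the coefficients to `ℝ`): rational and numerical equivalence coincide on `X`, up to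
torsion.

Properties of the theory of cycles that are used for the abelian varieties (`IsChow`,
`IsMotivic`): Poincaré duality, the formal properties of correspondences, the nilpotence of
homologically trivial correspondences (Kimura), the operation of the Frobenius endomorphism on higher
Chow groups, the vanishing of the higher rational `K`-groups of a finite field (Quillen), and the
algebraicity of the classes in `Alg` (of which only products of classes of divisors matter here,
theorem of Tate). The passage from the Tate conjecture to all degrees and to the class `Generated` is
due to Soulé, Geisser, Kahn and Jannsen.

The proof: the members are constructed with an auxiliary prime number `l` such that an inertia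
element at `l` exchanges the two elements of one complex conjugate pair of roots of each member and
fixes all the other roots, for all members at the same time. As the fields of different members are
different, a Galois element separates these pairs, and it follows that all multiplicative relations
between the roots of any finite number of members come from the complex conjugate pairs
(`Pool.Agent.X296.Prod`).
-/

namespace Pool.Agent.Results.MP_4960c7_ag.FixedFieldProducts

open Polynomial Pool.Agent.X296.Prod

open Pool.Agent.W495.TA Pool.Agent.W495.FM

open Pool.Agent.X303.TBDual

/-- The pairings of the Chow groups are perfect for all smooth projective `X` generated by the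
members. -/
def Holds {p : ℕ} [Fact p.Prime] (ν : PadicAlgCl p ≃+* ℂ) (a : ℕ) (S : Set ℤ[X]) : Prop :=
  ∀ (Ω : Type) [Field Ω] [IsAlgClosed Ω] [CharZero Ω] (V : Type) (T : Homology Ω V), IsHomology T →
    ∀ X : V, Generated T (IsAbelianOfMembers ν a S T) X → ∀ (d : ℤ) (D : CupData T X d), IsCup D →
      ∀ n : ℤ, FiniteDimensional ℚ (T.M X (2 * n) n) ∧ IsPerfect (D.cup (2 * n) n)

theorem holds_of {p : ℕ} [Fact p.Prime] {ν : PadicAlgCl p ≃+* ℂ} {a : ℕ} {S : Set ℤ[X]}
    (h : ∀ Y : RedAV p ν, OfMembers a S Y → TH117.BL.HasElementaryRelations Y) :
    Holds ν a S := fun _ _ _ _ _ _ hT _ hX _ _ hD _ =>
  ⟨finite_M hT (tb_members h hT hX) _ _, perfect hT (tb_members h hT hX) hD _ _⟩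

/-- **The main theorem.** -/
theorem result (p : ℕ) [Fact p.Prime] (a : ℕ) (ha : 1 ≤ a) :
    ∃ (C : ℝ) (g0 : ℕ) (S : ℕ → Finset ℤ[X]), IsLargeFamily p a C g0 S ∧
      ∀ ν : PadicAlgCl p ≃+* ℂ, Holds ν a {P | ∃ g, P ∈ S g} := by
  obtain ⟨C, g0, S, h1, h2⟩ := exists_largeFamily p a ha
  exact ⟨C, g0, S, h1, fun ν => holds_of (h2 ν)⟩

end Pool.Agent.Results.MP_4960c7_ag.FixedFieldProducts
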