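import Pool.Agent.X312.CH.Conv

/-!
# A gap law for the numerically trivial cycles on `Y × X ^ n`, `Y` fixed

Let `X` and `Y` be smooth projective varieties over an algebraic closure of a finite field. Nothing is
assumed on `Y`. On `X` we assume that the numerically trivial self-correspondences of the powers of `X`
are nilpotent; by Kimura this holds if the Chow motive of `X` is finite-dimensional, for example for
all products of curves and for all abelian varieties. The conjecture of Beilinson says that rational
and numerical equivalence agree (with rational coefficients) on every smooth projective variety `Z`;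
equivalently, the intersection pairings on the groups `CH^i(Z)_ℝ` are perfect. Let `ρ(Z)` be the rank of
the group of the cycles of all codimensions on `Z` modulo numerical equivalence and let `b` be the sum of
the Betti numbers of `X`. Then for all `m ≥ 1`: **the conjecture is true for `Y × X ^ m`, or**

`dim {numerically trivial classes in CH(Y × X ^ n)_ℚ} ≥ (1 - 4 (m + 3) b ^ (m + 5) log (n + 1) / n) ρ(X ^ n)`

**for all** `n ≥ 1` (the left hand side may be infinite). So one nonzero numerically trivial class on one of
the varieties `Y × X ^ m` forces, on all the varieties `Y × X ^ n`, almost as many independent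
numerically trivial classes as there are classes modulo numerical equivalence on `X ^ n`, and the
conjecture for `Y × X ^ m` follows from a single upper bound for the dimension of the Chow group of
`Y × X ^ n` for one (large) `n`. (Multiplying a numerically trivial class on `Y × X ^ m` with the classes on
`X ^ (n - m)` gives only `ρ(X ^ (n - m))` classes, which is smaller by an exponential factor.)

The proof. The correspondences `P → Z` between powers of `X` act on the space `N(Z)` of the numerically
trivial classes on `Y × Z`. They generate a finite-dimensional algebra modulo nilpotent ideals. If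
`N(P) ≠ 0` for `P = X ^ m`, one takes an idempotent correspondence `g` on `P` of minimal rank with `g N(P) ≠ 0`
and an element `z ≠ 0` of `g N(P)`. The correspondences `x` with `x z = 0` have a nilpotent compression
`g x g`, so the trace of `g x` vanishes, and so `dim N(Z)` is at least the rank of the trace form
`(u, v) ↦ tr (g v u)`; for `Z = X ^ n` this rank is compared with `ρ(X ^ n)` by the log-convexity of the
sequence of the ranks of the intersection forms and by the symmetric group.
-/

set_option autoImplicit false

open CategoryTheory AlgebraicGeometry

universe u v

namespace Pool.Agent.Results.MP_4960c7_ag.NumericallyTrivialGap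

open Pool.Agent.H914 VarClass Obj WeilCohomology
open Pool.Agent.W492.BB (TheoryData)
open Pool.Agent.X312.CH (CycleTheory HasIndep)
open Pool.Agent.Y133.Half (pw cycRank)

variable {k : Type u} [Field k] {𝒱 : VarClass k} {ops : CycleOps 𝒱}
  {W : WeilCohomology.{u, v} ops} {C : TheoryData.{u, 0, 0} 𝒱 ℚ}

/-- Every numerically trivial element of `A(Z)` is zero (for the Chow rings: rational and numerical
equivalence agree on `Z`, with rational coefficients). -/
def RatEqNum (𝓣 : CycleTheory W C) (Z : 𝒱.Obj) : Prop :=
  ∀ a : C.A Z, 𝓣.NumTriv a → a = 0

/-- The sum of the Betti numbers of `X`. -/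
noncomputable def totalBetti (W : WeilCohomology.{u, v} ops) (X : 𝒱.Obj) : ℕ :=
  Module.finrank W.K (W.H X)

/-- **The gap law for numerically trivial cycles.** Here `pw X m` is the product of `m + 1` copies of
`X`, and `HasIndep S x` says that there are at least `x` linearly independent elements of `S`. -/
theorem result (𝓣 : CycleTheory W C) (X Y : 𝒱.Obj) (hY : (1 : W.H Y) ≠ 0)
    (hX : ∀ n : ℕ, 𝓣.NumNil (pw X n)) (m : ℕ) :
    RatEqNum 𝓣 (Y.prod (pw X m)) ∨
    ∀ n : ℕ, HasIndep {a : C.A (Y.prod (pw X n)) | 𝓣.NumTriv a}
      ((1 - 4 * (m + 4) * (totalBetti W X : ℝ) ^ (m + 6) * Real.log (n + 2) / (n + 1)) *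
        cycRank ops (pw X n)) :=
  Pool.Agent.X312.CH.num_law 𝓣 X Y hY hX m

end Pool.Agent.Results.MP_4960c7_ag.NumericallyTrivialGap
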